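import Pool.Agent.Helper24.Lag5

/-!
MP_6c75e4_nt, question Q1: for a monic non-hyperbolic polynomial `P` the multiplicative Lagrange
spectrum of order `k` is never closed, hence never equal to `[0, 1/2]`.

Idea.  Put `Q = P ^ (k + 1)` and let `u_n` be the nearest integer to `x_n(g)`.  The sequence
`x_n(g)` is annihilated by `Q(shift)`, so `Q(shift) u` is minus `Q(shift)` of the error sequence.
If the limsup is smaller than the reciprocal of the length of `Q`, the integer sequence
`Q(shift) u` is eventually of absolute value `< 1`, that is, eventually zero; hence `u` is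
eventually one of countably many integer linear recurrences, and `u` determines `g`.  So the
spectrum is countable near `0`, whereas its closure contains `[0, 1/2]`.
-/

set_option autoImplicit false

namespace Pool.Agent.Results.MP_6c75e4_nt.NeverClosed

open Polynomial Pool.Agent.Helper24.LagDefs

/-- Non-hyperbolic polynomials as in the problem exist, and for every one of them and every order
`k` the multiplicative Lagrange spectrum is different from `[0, 1/2]` and is not closed. -/
theorem result :
    (∃ P : ℤ[X], Admissible P ∧ ¬ Hyperbolic P) ∧
    ∀ P : ℤ[X], Admissible P → ¬ Hyperbolic P → ∀ k : ℕ,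
      mulLagrangeSpectrum P k ≠ Set.Icc 0 (1 / 2) ∧ ¬ IsClosed (mulLagrangeSpectrum P k) :=
  ⟨⟨Pool.Agent.Helper24.Lag5.salem, Pool.Agent.Helper24.Lag5.salem_admissible,
      Pool.Agent.Helper24.Lag5.salem_not_hyperbolic⟩,
    fun _ hP hyp k => ⟨Pool.Agent.Helper24.Lag2.ne_Icc hP.monic k,
      Pool.Agent.Helper24.Lag4.not_isClosed hP hyp k⟩⟩

end Pool.Agent.Results.MP_6c75e4_nt.NeverClosed
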